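import Pool.Agent.Lib.MP_b28f50_lc.Ins.Final
import Pool.Agent.Lib.MP_b28f50_lc.Ins.Cov

set_option autoImplicit false
open Filter

namespace Pool.Agent.Results.MP_b28f50_lc.CovMeager

/-- For every finite nonempty set `A` there is a set `E` of sequences in `A`, of size at most the
number of meagre sets needed to cover the Cantor space and at most the dominating number, such that
for every sequence `σ` of strategies one member of `E` follows every `σ j` on blocks of every
length `k`, infinitely often. -/
theorem result (A : Type) [Finite A] [Nonempty A] :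
    ∃ E : Set (ℕ → A),
      (∀ C : Set (Set (ℕ → Bool)), (∀ M ∈ C, IsMeagre M) → ⋃₀ C = Set.univ →
        Cardinal.mk E ≤ Cardinal.mk C) ∧
      (∀ D : Set (ℕ → ℕ), (∀ g : ℕ → ℕ, ∃ f ∈ D, ∀ᶠ n in atTop, g n ≤ f n) →
        Cardinal.mk E ≤ Cardinal.mk D) ∧
      ∀ σ : ℕ → List A → A, ∃ f ∈ E, ∀ j k : ℕ,
        ∃ᶠ n in atTop, ∀ i ∈ Finset.Ico n (n + k),
          f i = σ j ((List.range i).map f) := by
  classical
  have := Fintype.ofFinite A
  have := Encodable.ofCountable A
  have : Inhabited A := Classical.inhabited_of_nonempty inferInstance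
  obtain ⟨E, hE, h⟩ := Pool.Agent.Lib.MP_b28f50_lc.Ins.exists_family A
  exact ⟨E, fun C hC hU => hE.trans (Pool.Agent.Lib.MP_b28f50_lc.Ins.lam_le_of_cover C hC hU),
    fun D hD => hE.trans (Pool.Agent.Lib.MP_b28f50_lc.lam_le_of_dominating D hD), h⟩

end Pool.Agent.Results.MP_b28f50_lc.CovMeager
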